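import Pool.Agent.Q81.TF.Stm

/-! Asymptotic inequalities of exponentials (K1, K3, K4, K5 of the project TF). -/

open Set MeasureTheory Filter Topology

namespace Pool.Agent.Q295.TF

open Pool.Agent.Q81.TF

theorem ev_const_le_exp (C δ : ℝ) (hδ : 0 < δ) : ∀ᶠ K : ℝ in atTop, C ≤ Real.exp (δ * K) := by
  have h : Tendsto (fun K : ℝ => Real.exp (δ * K)) atTop atTop :=
    Real.tendsto_exp_atTop.comp (tendsto_id.const_mul_atTop hδ)
  exact h.eventually_ge_atTop C

theorem ev_lin_le_exp (C δ : ℝ) (hδ : 0 < δ) :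
    ∀ᶠ K : ℝ in atTop, C * (1 + lamP * K) ≤ Real.exp (δ * K) := by
  have h1 := ev_const_le_exp (|C| * (1 + 3 / δ)) (δ / 2) (by positivity)
  filter_upwards [h1, eventually_ge_atTop (0 : ℝ)] with K hK hK0
  have h2 : δ * K / 2 + 1 ≤ Real.exp (δ / 2 * K) := by
    have := Real.add_one_le_exp (δ / 2 * K)
    linarith
  have h3 : 1 + lamP * K ≤ (1 + 3 / δ) * Real.exp (δ / 2 * K) := by
    have h4 : (1 : ℝ) ≤ Real.exp (δ / 2 * K) := by
      have : 0 ≤ δ * K / 2 := by positivity
      linarith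
    have h5 : lamP * K ≤ 3 / δ * Real.exp (δ / 2 * K) := by
      have h6 : 3 / δ * (δ * K / 2) ≤ 3 / δ * Real.exp (δ / 2 * K) := by
        apply mul_le_mul_of_nonneg_left _ (by positivity)
        linarith
      have h7 : 3 / δ * (δ * K / 2) = 3 / 2 * K := by field_simp
      unfold lamP
      linarith
    linarith
  have h8 : Real.exp (δ * K) = Real.exp (δ / 2 * K) * Real.exp (δ / 2 * K) := by
    rw [← Real.exp_add]
    congr 1
    ring
  rw [h8]
  have h9 : (0 : ℝ) ≤ 1 + lamP * K := by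
    unfold lamP
    positivity
  calc C * (1 + lamP * K) ≤ |C| * (1 + lamP * K) :=
        mul_le_mul_of_nonneg_right (le_abs_self C) h9
    _ ≤ |C| * ((1 + 3 / δ) * Real.exp (δ / 2 * K)) :=
        mul_le_mul_of_nonneg_left h3 (abs_nonneg C)
    _ = |C| * (1 + 3 / δ) * Real.exp (δ / 2 * K) := by ring
    _ ≤ Real.exp (δ / 2 * K) * Real.exp (δ / 2 * K) :=
        mul_le_mul_of_nonneg_right hK (Real.exp_pos _).le

theorem rhoP_pos {n : ℝ} (hn : 3 ≤ n) : 0 < rhoP n := by
  unfold rhoP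
  nlinarith

theorem s_k1 : S_K1 := by
  intro n hn
  have hρ := rhoP_pos hn
  obtain ⟨K0, h⟩ := eventually_atTop.1 (ev_const_le_exp 64 (rhoP n / 20) (by positivity))
  refine ⟨K0, fun K hK => ?_⟩
  have h1 := h K hK
  have h2 : nuK n K = Real.exp (rhoP n / 20 * K) * muK n K := by
    unfold nuK muK rhoQ lamP
    rw [← Real.exp_add]
    congr 1
    ring
  rw [h2]
  exact mul_le_mul_of_nonneg_right h1 (muK_pos _ _).le

/-- the constant of `PK` -/
noncomputable def cK (n M Pm : ℝ) : ℝ := 3 * (cA n M Pm + 5 * n) + 8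

theorem PK_eq (n M Pm κ : ℝ) : PK n M Pm 0 κ =
    Real.exp (cK n M Pm + 1 / 4 * Real.log (1 + κ) + (n - 3) / 5 * κ) := by
  unfold PK cK
  congr 1
  simp

theorem hS_eq {n L : ℝ} (K : ℝ) (hL : 0 < L) : hS n L K =
    (4 * L) ^ (1 / (n - 8 / 5)) * Real.exp (-(sigP n / (n - 8 / 5) * K)) := by
  unfold hS SgK
  rw [Real.div_rpow (by positivity) (Real.exp_pos _).le, ← Real.exp_mul, div_eq_mul_inv,
    ← Real.exp_neg]
  congr 2
  ring

theorem s_k5 : S_K5 := by
  intro n L M Pm hn hn9 hL hM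
  have hd1 : 0 < n - 8 / 5 := by linarith
  -- the two exponents
  set δ1 : ℝ := 2 * sigP n / (n - 8 / 5) + 21 / 100 * (n - 3) - rhoQ n with hδ1
  have hδ1p : 0 < δ1 := by
    rw [hδ1]
    have h1 : rhoQ n - 21 / 100 * (n - 3) < 2 * sigP n / (n - 8 / 5) := by
      rw [lt_div_iff₀ hd1]
      unfold rhoQ rhoP lamP sigP
      nlinarith
    linarith
  set δ2 : ℝ := 21 / 10 + 21 / 100 * (n - 3) - rhoQ n with hδ2
  have hδ2p : 0 < δ2 := by
    rw [hδ2]
    unfold rhoQ rhoP lamP
    nlinarith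
  have e1 := ev_const_le_exp (4 * ((4 * L) ^ (1 / (n - 8 / 5))) ^ 2 /
    (512 * Real.exp (cK n M Pm))) δ1 hδ1p
  have e2 := ev_const_le_exp (4 / (512 * Real.exp (cK n M Pm))) δ2 hδ2p
  obtain ⟨K0, h⟩ := eventually_atTop.1 (e1.and (e2.and (eventually_ge_atTop (0 : ℝ))))
  refine ⟨K0, fun K hK => ?_⟩
  obtain ⟨h1, h2, h3⟩ := h K hK
  have hc : 0 < 512 * Real.exp (cK n M Pm) := by positivity
  have hκ : 0 ≤ lamP * K := by
    unfold lamP
    positivity
  have hP : Real.exp (cK n M Pm) * Real.exp ((n - 3) / 5 * (lamP * K)) ≤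
      PK n M Pm 0 (lamP * K) := by
    rw [PK_eq, ← Real.exp_add, Real.exp_le_exp]
    have : 0 ≤ Real.log (1 + lamP * K) := Real.log_nonneg (by linarith)
    linarith
  have hR : 512 * Real.exp (cK n M Pm) * (Real.exp ((n - 3) / 5 * (lamP * K)) * muK n K) ≤
      16 * PK n M Pm 0 (lamP * K) * (32 * muK n K) := by
    have := mul_le_mul_of_nonneg_right hP (muK_pos n K).le
    nlinarith
  constructor
  · refine le_trans ?_ hR
    rw [div_le_iff₀ hc] at h1
    have h4 : (2 * hS n L K) ^ 2 = 4 * ((4 * L) ^ (1 / (n - 8 / 5))) ^ 2 *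
        Real.exp (-(2 * sigP n / (n - 8 / 5) * K)) := by
      rw [hS_eq K hL]
      have : Real.exp (-(2 * sigP n / (n - 8 / 5) * K)) =
          Real.exp (-(sigP n / (n - 8 / 5) * K)) ^ 2 := by
        rw [← Real.exp_nat_mul]
        congr 1
        push_cast
        ring
      rw [this]
      ring
    rw [h4]
    have h5 : Real.exp ((n - 3) / 5 * (lamP * K)) * muK n K =
        Real.exp (δ1 * K) * Real.exp (-(2 * sigP n / (n - 8 / 5) * K)) := by
      unfold muK
      rw [← Real.exp_add, ← Real.exp_add]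
      congr 1
      rw [hδ1]
      unfold lamP
      ring
    rw [h5]
    have := mul_le_mul_of_nonneg_right h1 (Real.exp_pos (-(2 * sigP n / (n - 8 / 5) * K))).le
    linarith
  · refine le_trans ?_ hR
    rw [div_le_iff₀ hc] at h2
    have h4 : (2 * thK K) ^ 2 = 4 * Real.exp (-(21 / 10 * K)) := by
      unfold thK
      have : Real.exp (-(21 / 10 * K)) = Real.exp (-(lamP * K)) ^ 2 := by
        rw [← Real.exp_nat_mul]
        congr 1
        unfold lamP
        push_cast
        ring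
      rw [this]
      ring
    rw [h4]
    have h5 : Real.exp ((n - 3) / 5 * (lamP * K)) * muK n K =
        Real.exp (δ2 * K) * Real.exp (-(21 / 10 * K)) := by
      unfold muK
      rw [← Real.exp_add, ← Real.exp_add]
      congr 1
      rw [hδ2]
      unfold lamP
      ring
    rw [h5]
    have := mul_le_mul_of_nonneg_right h2 (Real.exp_pos (-(21 / 10 * K))).le
    linarith

end Pool.Agent.Q295.TF
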