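import Pool.Agent.Q295.TF.Asy

/-! Asymptotic inequalities of exponentials (K3, K4 of the project TF). -/

open Set MeasureTheory Filter Topology

namespace Pool.Agent.Q295.TF

open Pool.Agent.Q81.TF

theorem PK_pow_le {n M Pm κ s : ℝ} (c : ℝ) (hκ : 0 ≤ κ) (hc : 0 ≤ c)
    (hs4 : s ≤ 4) : (c * PK n M Pm 0 κ) ^ s ≤
      c ^ s * Real.exp (s * cK n M Pm) * (1 + κ) * Real.exp (s * ((n - 3) / 5 * κ)) := by
  have hl : 0 ≤ Real.log (1 + κ) := Real.log_nonneg (by linarith)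
  rw [PK_eq, Real.mul_rpow hc (Real.exp_pos _).le, ← Real.exp_mul]
  have h1 : Real.exp ((cK n M Pm + 1 / 4 * Real.log (1 + κ) + (n - 3) / 5 * κ) * s) ≤
      Real.exp (s * cK n M Pm) * (1 + κ) * Real.exp (s * ((n - 3) / 5 * κ)) := by
    have h2 : 1 + κ = Real.exp (Real.log (1 + κ)) := (Real.exp_log (by linarith)).symm
    rw [h2, ← Real.exp_add, ← Real.exp_add, Real.exp_le_exp, Real.exp_log (by linarith)]
    nlinarith
  calc _ ≤ c ^ s * (Real.exp (s * cK n M Pm) * (1 + κ) * Real.exp (s * ((n - 3) / 5 * κ))) :=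
        mul_le_mul_of_nonneg_left h1 (Real.rpow_nonneg hc _)
    _ = _ := by ring

theorem s_k3 : S_K3 := by
  intro n L M Pm Z I hn hn9 hL hM hZ hI
  have hd1 : 0 < n - 8 / 5 := by linarith
  have hA : 0 ≤ sC n * Z ^ 4 * 4 * I := by
    have := sC_nonneg hn
    positivity
  set A : ℝ := sC n * Z ^ 4 * 4 * I with hAdef
  set δ1 : ℝ := sigP n - 3 * rhoQ n + 23 / 5 * (sigP n / (n - 8 / 5)) with hδ1
  have hδ1p : 0 < δ1 := by
    rw [hδ1]
    have h1 : 3 * rhoQ n - sigP n < 23 / 5 * (sigP n / (n - 8 / 5)) := by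
      rw [← mul_div_assoc, lt_div_iff₀ hd1]
      unfold rhoQ rhoP lamP sigP
      nlinarith
    linarith
  set δ2 : ℝ := sigP n - 3 * rhoQ n + 23 / 5 * lamP with hδ2
  have hδ2p : 0 < δ2 := by
    rw [hδ2]
    unfold rhoQ rhoP lamP sigP
    nlinarith
  set δ3 : ℝ := sigP n - 3 * rhoQ n - 23 / 10 * ((n - 3) / 5 * lamP - rhoQ n) with hδ3
  have hδ3p : 0 < δ3 := by
    rw [hδ3]
    unfold rhoQ rhoP lamP sigP
    nlinarith
  set C1 : ℝ := (2 * (4 * L) ^ (1 / (n - 8 / 5))) ^ ((23 : ℝ) / 5) with hC1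
  set C2 : ℝ := (2 : ℝ) ^ ((23 : ℝ) / 5) with hC2
  set C3 : ℝ := (32 : ℝ) ^ ((23 : ℝ) / 10) * Real.exp (23 / 10 * cK n M Pm) with hC3
  have e1 := ev_const_le_exp (12 * A * C1) δ1 hδ1p
  have e2 := ev_const_le_exp (12 * A * C2) δ2 hδ2p
  have e3 := ev_lin_le_exp (12 * A * C3) δ3 hδ3p
  obtain ⟨K0, h⟩ := eventually_atTop.1 (e1.and (e2.and (e3.and (eventually_ge_atTop (0 : ℝ)))))
  refine ⟨K0, fun K hK => ?_⟩
  obtain ⟨h1, h2, h3, h0⟩ := h K hK
  have hκ : 0 ≤ lamP * K := by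
    unfold lamP
    positivity
  have hμ := muK_pos n K
  have hE : Real.exp (3 * rhoQ n * K) * muK n K ^ 3 = 1 := by
    unfold muK
    rw [← Real.exp_nat_mul, ← Real.exp_add, ← Real.exp_zero]
    congr 1
    push_cast
    ring
  have hZ4 : (Z / muK n K) ^ 4 * (4 * muK n K) = 4 * Z ^ 4 * Real.exp (3 * rhoQ n * K) := by
    have h4 : Real.exp (3 * rhoQ n * K) = 1 / muK n K ^ 3 := by
      rw [eq_div_iff (by positivity)]
      exact hE
    rw [h4]
    field_simp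
  have hT1 : (2 * hS n L K) ^ ((23 : ℝ) / 5) =
      C1 * Real.exp (-(23 / 5 * (sigP n / (n - 8 / 5)) * K)) := by
    rw [hS_eq K hL, ← mul_assoc, Real.mul_rpow (by positivity) (Real.exp_pos _).le,
      ← Real.exp_mul]
    congr 2
    ring
  have hT2 : (2 * thK K) ^ ((23 : ℝ) / 5) = C2 * Real.exp (-(23 / 5 * lamP * K)) := by
    unfold thK
    rw [Real.mul_rpow (by norm_num) (Real.exp_pos _).le, ← Real.exp_mul]
    congr 2
    ring
  have hT3 : (32 * PK n M Pm 0 (lamP * K) * muK n K) ^ ((23 : ℝ) / 10) ≤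
      C3 * (1 + lamP * K) * Real.exp (23 / 10 * ((n - 3) / 5 * lamP - rhoQ n) * K) := by
    have hP : 0 ≤ 32 * PK n M Pm 0 (lamP * K) := by
      unfold PK
      positivity
    rw [Real.mul_rpow hP hμ.le]
    have h5 := PK_pow_le (n := n) (M := M) (Pm := Pm) (s := 23 / 10) 32 hκ (by norm_num)
      (by norm_num)
    have h6 : muK n K ^ ((23 : ℝ) / 10) = Real.exp (-(23 / 10 * rhoQ n * K)) := by
      unfold muK
      rw [← Real.exp_mul]
      congr 1
      ring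
    rw [h6]
    calc _ ≤ (32 : ℝ) ^ ((23 : ℝ) / 10) * Real.exp (23 / 10 * cK n M Pm) * (1 + lamP * K) *
          Real.exp (23 / 10 * ((n - 3) / 5 * (lamP * K))) *
          Real.exp (-(23 / 10 * rhoQ n * K)) :=
          mul_le_mul_of_nonneg_right h5 (Real.exp_pos _).le
      _ = _ := by
          rw [mul_assoc _ (Real.exp (23 / 10 * ((n - 3) / 5 * (lamP * K)))), ← Real.exp_add, hC3]
          congr 2
          ring
  have hS1 : A * Real.exp (3 * rhoQ n * K) * (2 * hS n L K) ^ ((23 : ℝ) / 5) ≤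
      SgK n K / 12 := by
    rw [hT1]
    have h7 : SgK n K = Real.exp (δ1 * K) *
        (Real.exp (3 * rhoQ n * K) * Real.exp (-(23 / 5 * (sigP n / (n - 8 / 5)) * K))) := by
      unfold SgK
      rw [← Real.exp_add, ← Real.exp_add, hδ1]
      congr 1
      ring
    have h8 := mul_le_mul_of_nonneg_right h1 (mul_pos (Real.exp_pos (3 * rhoQ n * K))
      (Real.exp_pos (-(23 / 5 * (sigP n / (n - 8 / 5)) * K)))).le
    rw [← h7] at h8
    linarith
  have hS2 : A * Real.exp (3 * rhoQ n * K) * (2 * thK K) ^ ((23 : ℝ) / 5) ≤ SgK n K / 12 := by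
    rw [hT2]
    have h7 : SgK n K = Real.exp (δ2 * K) *
        (Real.exp (3 * rhoQ n * K) * Real.exp (-(23 / 5 * lamP * K))) := by
      unfold SgK
      rw [← Real.exp_add, ← Real.exp_add, hδ2]
      congr 1
      ring
    have h8 := mul_le_mul_of_nonneg_right h2 (mul_pos (Real.exp_pos (3 * rhoQ n * K))
      (Real.exp_pos (-(23 / 5 * lamP * K)))).le
    rw [← h7] at h8
    linarith
  have hS3 : A * Real.exp (3 * rhoQ n * K) *
      (32 * PK n M Pm 0 (lamP * K) * muK n K) ^ ((23 : ℝ) / 10) ≤ SgK n K / 12 := by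
    have h7 : SgK n K = Real.exp (δ3 * K) * (Real.exp (3 * rhoQ n * K) *
        Real.exp (23 / 10 * ((n - 3) / 5 * lamP - rhoQ n) * K)) := by
      unfold SgK
      rw [← Real.exp_add, ← Real.exp_add, hδ3]
      congr 1
      ring
    have h8 := mul_le_mul_of_nonneg_right h3 (mul_pos (Real.exp_pos (3 * rhoQ n * K))
      (Real.exp_pos (23 / 10 * ((n - 3) / 5 * lamP - rhoQ n) * K))).le
    rw [← h7] at h8
    have h9 := mul_le_mul_of_nonneg_left hT3
      (mul_nonneg hA (Real.exp_pos (3 * rhoQ n * K)).le)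
    linarith
  have hfin : sC n * (Z / muK n K) ^ 4 * ((2 * hS n L K) ^ ((23 : ℝ) / 5) +
      (2 * thK K) ^ ((23 : ℝ) / 5) +
      (32 * PK n M Pm 0 (lamP * K) * muK n K) ^ ((23 : ℝ) / 10)) * (4 * muK n K) * I =
      A * Real.exp (3 * rhoQ n * K) * (2 * hS n L K) ^ ((23 : ℝ) / 5) +
      A * Real.exp (3 * rhoQ n * K) * (2 * thK K) ^ ((23 : ℝ) / 5) +
      A * Real.exp (3 * rhoQ n * K) *
        (32 * PK n M Pm 0 (lamP * K) * muK n K) ^ ((23 : ℝ) / 10) := by
    set T := (2 * hS n L K) ^ ((23 : ℝ) / 5) + (2 * thK K) ^ ((23 : ℝ) / 5) +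
      (32 * PK n M Pm 0 (lamP * K) * muK n K) ^ ((23 : ℝ) / 10) with hT
    calc sC n * (Z / muK n K) ^ 4 * T * (4 * muK n K) * I =
          sC n * ((Z / muK n K) ^ 4 * (4 * muK n K)) * T * I := by ring
      _ = A * Real.exp (3 * rhoQ n * K) * T := by
          rw [hZ4, hAdef]
          ring
      _ = _ := by
          rw [hT]
          ring
  rw [hfin]
  linarith

end Pool.Agent.Q295.TF
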