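import Pool.Agent.Q295.TF.AsyB

/-! Asymptotic inequality K4 of the project TF. -/

open Set MeasureTheory Filter Topology

namespace Pool.Agent.Q295.TF

open Pool.Agent.Q81.TF

theorem log_nu_mu {n K : ℝ} : Real.log (nuK n K / (32 * muK n K)) =
    rhoP n / 20 * K - Real.log 32 := by
  rw [Real.log_div (nuK_pos _ _).ne' (mul_pos (by norm_num) (muK_pos _ _)).ne',
    Real.log_mul (by norm_num) (muK_pos _ _).ne']
  unfold nuK muK rhoQ lamP
  rw [Real.log_exp, Real.log_exp]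
  ring

/-- the constant in the bound of `kapK` -/
noncomputable def cKap (n M Pm B : ℝ) : ℝ :=
  B ^ 2 * (16 : ℝ) ^ ((n - 1) / 2) * Real.exp ((n - 1) / 2 * cK n M Pm) * 200

theorem kapK_le {n M Pm B K : ℝ} (hn : 3 ≤ n) (hK : 3000 ≤ K)
    (hl : Real.log (1 + lamP * K) ≤ 0.084 * K) :
    kapK n M Pm B K ≤ cKap n M Pm B * K ^ (-(3 : ℝ) / 4) := by
  have hK0 : 0 < K := by linarith
  have hκ : 0 ≤ lamP * K := by
    unfold lamP
    positivity
  have hl0 : 0 ≤ Real.log (1 + lamP * K) := Real.log_nonneg (by linarith)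
  have hρ : 441 / 1000 ≤ rhoP n := by
    unfold rhoP
    nlinarith
  have h32 : Real.log 32 ≤ 31 := by
    have := Real.log_le_sub_one_of_pos (show (0 : ℝ) < 32 by norm_num)
    linarith
  have hden : K / 100 ≤ rhoP n / 20 * K - Real.log 32 := by
    nlinarith
  have hden0 : 0 < K / 100 := by positivity
  have hnum : (16 * PK n M Pm 0 (lamP * K)) ^ ((n - 1) / 2) * nuK n K ^ ((n - 1) / 2 - 1) ≤
      (16 : ℝ) ^ ((n - 1) / 2) * Real.exp ((n - 1) / 2 * cK n M Pm) * (2 * K ^ ((1 : ℝ) / 4)) := by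
    have h1 : nuK n K ^ ((n - 1) / 2 - 1) = Real.exp (-(rhoP n * K) * ((n - 1) / 2 - 1)) := by
      unfold nuK
      rw [← Real.exp_mul]
    rw [h1, PK_eq, Real.mul_rpow (by norm_num) (Real.exp_pos _).le, ← Real.exp_mul, mul_assoc,
      ← Real.exp_add, mul_assoc]
    apply mul_le_mul_of_nonneg_left _ (Real.rpow_nonneg (by norm_num) _)
    have h2 : (cK n M Pm + 1 / 4 * Real.log (1 + lamP * K) + (n - 3) / 5 * (lamP * K)) *
        ((n - 1) / 2) + -(rhoP n * K) * ((n - 1) / 2 - 1) ≤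
        (n - 1) / 2 * cK n M Pm + 1 / 4 * Real.log (1 + lamP * K) := by
      have h3 : (n - 3) * Real.log (1 + lamP * K) ≤ (n - 3) * (0.084 * K) :=
        mul_le_mul_of_nonneg_left hl (by linarith)
      have h4 : (n - 3) / 5 * (lamP * K) * ((n - 1) / 2) + -(rhoP n * K) * ((n - 1) / 2 - 1) =
          -(21 / 4000 * ((n - 3) * (n - 1)) * K) := by
        unfold rhoP lamP
        ring
      have h5 : 0 ≤ (n - 3) * K := mul_nonneg (by linarith) hK0.le
      have h6 : 0 ≤ (n - 3) * ((n - 3) * K) := mul_nonneg (by linarith) h5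
      nlinarith
    have h7 : Real.exp (1 / 4 * Real.log (1 + lamP * K)) ≤ 2 * K ^ ((1 : ℝ) / 4) := by
      have h8 : Real.exp (1 / 4 * Real.log (1 + lamP * K)) = (1 + lamP * K) ^ ((1 : ℝ) / 4) := by
        rw [Real.rpow_def_of_pos (by linarith)]
        congr 1
        ring
      have h9 : (16 * K) ^ ((1 : ℝ) / 4) = 2 * K ^ ((1 : ℝ) / 4) := by
        rw [Real.mul_rpow (by norm_num) hK0.le]
        congr 1
        rw [show (16 : ℝ) = 2 ^ (4 : ℝ) by norm_num, ← Real.rpow_mul (by norm_num)]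
        norm_num
      rw [h8, ← h9]
      apply Real.rpow_le_rpow (by linarith) _ (by norm_num)
      unfold lamP
      linarith
    calc Real.exp _ ≤ Real.exp ((n - 1) / 2 * cK n M Pm + 1 / 4 * Real.log (1 + lamP * K)) :=
          Real.exp_le_exp.2 h2
      _ = Real.exp ((n - 1) / 2 * cK n M Pm) * Real.exp (1 / 4 * Real.log (1 + lamP * K)) :=
          Real.exp_add _ _
      _ ≤ _ := mul_le_mul_of_nonneg_left h7 (Real.exp_pos _).le
  have hq : K ^ ((1 : ℝ) / 4) / (K / 100) = 100 * K ^ (-(3 : ℝ) / 4) := by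
    rw [show (-(3 : ℝ) / 4) = 1 / 4 - 1 by norm_num, Real.rpow_sub hK0, Real.rpow_one]
    field_simp
  unfold kapK
  rw [log_nu_mu, mul_assoc (B ^ 2)]
  have hnn : 0 ≤ B ^ 2 * ((16 : ℝ) ^ ((n - 1) / 2) * Real.exp ((n - 1) / 2 * cK n M Pm) *
      (2 * K ^ ((1 : ℝ) / 4))) := by positivity
  calc B ^ 2 * ((16 * PK n M Pm 0 (lamP * K)) ^ ((n - 1) / 2) *
        nuK n K ^ ((n - 1) / 2 - 1)) / (rhoP n / 20 * K - Real.log 32) ≤
        B ^ 2 * ((16 : ℝ) ^ ((n - 1) / 2) * Real.exp ((n - 1) / 2 * cK n M Pm) *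
          (2 * K ^ ((1 : ℝ) / 4))) / (rhoP n / 20 * K - Real.log 32) := by
        apply div_le_div_of_nonneg_right _ (by linarith)
        exact mul_le_mul_of_nonneg_left hnum (sq_nonneg B)
    _ ≤ B ^ 2 * ((16 : ℝ) ^ ((n - 1) / 2) * Real.exp ((n - 1) / 2 * cK n M Pm) *
          (2 * K ^ ((1 : ℝ) / 4))) / (K / 100) :=
        div_le_div_of_nonneg_left hnn hden0 hden
    _ = B ^ 2 * (16 : ℝ) ^ ((n - 1) / 2) * Real.exp ((n - 1) / 2 * cK n M Pm) * 2 *
          (K ^ ((1 : ℝ) / 4) / (K / 100)) := by ring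
    _ = cKap n M Pm B * K ^ (-(3 : ℝ) / 4) := by
        rw [hq]
        unfold cKap
        ring

theorem s_k4 : S_K4 := by
  intro n M Pm B I hn hn9 hM hB hI
  have hC0 : 0 ≤ cKap n M Pm B := by
    unfold cKap
    positivity
  have hc2 : 0 < 1 - lamP ^ (-((1 : ℝ) / 4)) := by
    have : lamP ^ (-((1 : ℝ) / 4)) < 1 := by
      apply Real.rpow_lt_one_of_one_lt_of_neg
      · unfold lamP
        norm_num
      · norm_num
    linarith
  have e1 := ev_lin_le_exp 1 0.084 (by norm_num)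
  have h8 : Tendsto (fun K : ℝ => (1 - lamP ^ (-((1 : ℝ) / 4))) * K ^ ((1 : ℝ) / 8)) atTop
      atTop := (tendsto_rpow_atTop (by norm_num)).const_mul_atTop hc2
  have e2 := h8.eventually_gt_atTop (Real.sqrt (cKap n M Pm B) * I)
  obtain ⟨K0, h⟩ := eventually_atTop.1 (e1.and (e2.and (eventually_ge_atTop (3000 : ℝ))))
  refine ⟨K0, fun K hK => ?_⟩
  obtain ⟨h1, h2, h3⟩ := h K hK
  have hK0 : 0 < K := by linarith
  have hκ : 0 ≤ lamP * K := by
    unfold lamP
    positivity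
  have hl : Real.log (1 + lamP * K) ≤ 0.084 * K := by
    rw [Real.log_le_iff_le_exp (by linarith)]
    linarith
  have h4 := kapK_le (M := M) (Pm := Pm) (B := B) hn h3 hl
  have h5 : Real.sqrt (kapK n M Pm B K) ≤
      Real.sqrt (cKap n M Pm B) * K ^ (-(3 : ℝ) / 8) := by
    calc Real.sqrt (kapK n M Pm B K) ≤ Real.sqrt (cKap n M Pm B * K ^ (-(3 : ℝ) / 4)) :=
          Real.sqrt_le_sqrt h4
      _ = Real.sqrt (cKap n M Pm B) * Real.sqrt (K ^ (-(3 : ℝ) / 4)) :=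
          Real.sqrt_mul hC0 _
      _ = _ := by
          congr 1
          rw [Real.sqrt_eq_rpow, ← Real.rpow_mul hK0.le]
          norm_num
  have h6 : (lamP * K) ^ (-((1 : ℝ) / 4)) = lamP ^ (-((1 : ℝ) / 4)) * K ^ (-((1 : ℝ) / 4)) :=
    Real.mul_rpow (by unfold lamP; norm_num) hK0.le
  have h7 : K ^ (-((1 : ℝ) / 4)) = K ^ (-(3 : ℝ) / 8) * K ^ ((1 : ℝ) / 8) := by
    rw [← Real.rpow_add hK0]
    norm_num
  have h9 : 0 < K ^ (-(3 : ℝ) / 8) := Real.rpow_pos_of_pos hK0 _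
  rw [h6]
  calc Real.sqrt (kapK n M Pm B K) * I ≤
        Real.sqrt (cKap n M Pm B) * K ^ (-(3 : ℝ) / 8) * I :=
        mul_le_mul_of_nonneg_right h5 hI
    _ = K ^ (-(3 : ℝ) / 8) * (Real.sqrt (cKap n M Pm B) * I) := by ring
    _ < K ^ (-(3 : ℝ) / 8) * ((1 - lamP ^ (-((1 : ℝ) / 4))) * K ^ ((1 : ℝ) / 8)) :=
        mul_lt_mul_of_pos_left h2 h9
    _ = _ := by
        rw [h7]
        ring

end Pool.Agent.Q295.TF
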