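import Pool.Agent.Q81.TF.Stm

/-! GROW and BIG1 of the project TF. -/

open Set MeasureTheory Filter Topology

namespace Pool.Agent.Q295.TF

open Pool.Agent.Q81.TF

theorem label_mono {n a0 a E : ℝ} {f f1 f2 f3 m : ℝ → ℝ} (P : Prof n a0 a E f f1 f2 f3)
    (hm : ∀ x ∈ Ioc a0 a, HasDerivAt m (f x) x) {y x : ℝ} (hy : a0 < y) (hyx : y ≤ x)
    (hx : x ≤ a) : m y ≤ m x := by
  have hs : Icc y x ⊆ Ioc a0 a := fun z hz => ⟨hy.trans_le hz.1, hz.2.trans hx⟩
  have h : MonotoneOn m (Icc y x) := by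
    apply monotoneOn_of_deriv_nonneg (convex_Icc y x)
    · exact fun z hz => (hm z (hs hz)).continuousAt.continuousWithinAt
    · intro z hz
      exact (hm z (hs (interior_subset hz))).differentiableAt.differentiableWithinAt
    · intro z hz
      rw [(hm z (hs (interior_subset hz))).deriv]
      exact (P.pos z (hs (interior_subset hz))).le
  exact h ⟨le_rfl, hyx⟩ ⟨hyx, le_rfl⟩ hyx

theorem s_grow : S_GROW := by
  intro n a0 a E A c' f f1 f2 f3 m P hA hm hm0 hs x hx hxc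
  by_contra hcon
  push Not at hcon
  set G : ℝ → ℝ := fun y => f y ^ 2 - 8 * A * m y ^ ((1 : ℝ) / 4) with hG
  have hd0 : 0 < G x := by
    rw [hG]
    simp only
    linarith
  have hder : ∀ y ∈ Ioc a0 a, HasDerivAt G
      (2 * f y * f1 y - 8 * A * (f y * (1 / 4) * m y ^ ((1 : ℝ) / 4 - 1))) y := by
    intro y hy
    have h1 := (P.d0 y hy).pow 2
    have h2 := ((hm y hy).rpow_const (p := (1 : ℝ) / 4) (Or.inl (hm0 y hy).ne')).const_mul (8 * A)
    refine (h1.sub h2).congr_deriv ?_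
    push_cast
    ring
  have hneg : ∀ y ∈ Ioc a0 x,
      2 * f y * f1 y - 8 * A * (f y * (1 / 4) * m y ^ ((1 : ℝ) / 4 - 1)) ≤ 0 := by
    intro y hy
    have hya : y ∈ Ioc a0 a := ⟨hy.1, hy.2.trans hx.2⟩
    have h1 := hs y hya ((label_mono P hm hy.1 hy.2 hx.2).trans hxc)
    have h2 : ((1 : ℝ) / 4 - 1) = -((3 : ℝ) / 4) := by norm_num
    rw [h2]
    have h3 := P.pos y hya
    nlinarith [mul_le_mul_of_nonneg_left h1 h3.le]
  obtain ⟨r, hr, hlim⟩ := P.lim (Real.sqrt (G x)) (Real.sqrt_pos.2 hd0)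
  have hmin : a0 < min r x := lt_min hr hx.1
  obtain ⟨y, hy1, hy2⟩ := exists_between hmin
  have hyr : y < r := hy2.trans_le (min_le_left _ _)
  have hyx : y < x := hy2.trans_le (min_le_right _ _)
  have hya : y ∈ Ioc a0 a := ⟨hy1, hyx.le.trans hx.2⟩
  have hfy := hlim y ⟨hy1, hyr⟩
  have hanti : G x ≤ G y := by
    have hsub : Icc y x ⊆ Ioc a0 a := fun z hz => ⟨hy1.trans_le hz.1, hz.2.trans hx.2⟩
    have h : AntitoneOn G (Icc y x) := by
      apply antitoneOn_of_deriv_nonpos (convex_Icc y x)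
      · exact fun z hz => (hder z (hsub hz)).continuousAt.continuousWithinAt
      · intro z hz
        exact (hder z (hsub (interior_subset hz))).differentiableAt.differentiableWithinAt
      · intro z hz
        rw [(hder z (hsub (interior_subset hz))).deriv]
        have hz' := interior_subset hz
        exact hneg z ⟨hy1.trans_le hz'.1, hz'.2⟩
    exact h ⟨le_rfl, hyx.le⟩ ⟨hyx.le, le_rfl⟩ hyx.le
  have hGy : G y ≤ f y ^ 2 := by
    rw [hG]
    simp only
    have : 0 ≤ 8 * A * m y ^ ((1 : ℝ) / 4) :=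
      mul_nonneg (by linarith) (Real.rpow_nonneg (hm0 y hya).le _)
    linarith
  have hf2 : f y ^ 2 < G x := by
    have h1 := P.pos y hya
    calc f y ^ 2 < Real.sqrt (G x) ^ 2 := pow_lt_pow_left₀ hfy h1.le (by norm_num)
      _ = G x := Real.sq_sqrt hd0.le
  linarith

theorem s_big1 : S_BIG1 := by
  intro n M c Pm Gm c' hn hM hc hc'
  set c2 : ℝ := min c' 1 with hc2
  have hc20 : 0 < c2 := lt_min hc' one_pos
  set C : ℝ := slC n c Pm Gm with hC
  have hC1 : 1 ≤ C := slC_one hc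
  have hMn : 0 < M ^ (n - 9) := Real.rpow_pos_of_pos (by linarith) _
  have hMn1 : 0 < M ^ (n - 1) := Real.rpow_pos_of_pos (by linarith) _
  refine ⟨M ^ (n - 9) * (32768 * C) + M ^ (n - 1) / c2, by positivity, ?_⟩
  intro a0 a E f f1 f2 f3 m P hfM hca hPm hGm hm hm0 hR x hx
  have hE := P.E_nonneg
  have hfx := P.pos x hx
  have hmx := hm0 x hx
  set A : ℝ := (8 * C * (1 + E)) ^ ((1 : ℝ) / 4) with hA
  have hB0 : 0 ≤ 8 * C * (1 + E) := by positivity
  have hA0 : 0 ≤ A := Real.rpow_nonneg hB0 _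
  have hA4 : A ^ 4 = 8 * C * (1 + E) := by
    rw [hA, ← Real.rpow_natCast, ← Real.rpow_mul hB0]
    norm_num
  have hslope : ∀ y ∈ Ioc a0 a, m y ≤ c2 → f1 y ≤ A * m y ^ (-((3 : ℝ) / 4)) := by
    intro y hy hyc
    have hmy := hm0 y hy
    have hm1 : m y ≤ 1 := hyc.trans (min_le_right _ _)
    have h3 : 1 ≤ m y ^ (-(3 : ℝ)) := Real.one_le_rpow_of_pos_of_le_one_of_nonpos hmy hm1
      (by norm_num)
    have h4 := P.slopeR (by linarith) (N := 8 * m y ^ (-(3 : ℝ))) hy (by linarith)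
      (by
        have := hR y hy (hyc.trans (min_le_left _ _))
        linarith) hc hca hPm hGm
    rw [← hC] at h4
    have h5 : |f1 y| ^ 4 ≤ (A * m y ^ (-((3 : ℝ) / 4))) ^ 4 := by
      have h6 : (A * m y ^ (-((3 : ℝ) / 4))) ^ 4 = 8 * C * (1 + E) * m y ^ (-(3 : ℝ)) := by
        rw [mul_pow, hA4]
        congr 1
        rw [← Real.rpow_natCast, ← Real.rpow_mul hmy.le]
        norm_num
      rw [h6]
      refine h4.trans ?_
      have h7 : 1 + E * (8 * m y ^ (-(3 : ℝ))) ≤ 8 * ((1 + E) * m y ^ (-(3 : ℝ))) := by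
        nlinarith
      calc C * (1 + E * (8 * m y ^ (-(3 : ℝ)))) ≤ C * (8 * ((1 + E) * m y ^ (-(3 : ℝ)))) :=
            mul_le_mul_of_nonneg_left h7 (by linarith)
        _ = _ := by ring
    have h8 : 0 ≤ A * m y ^ (-((3 : ℝ) / 4)) := mul_nonneg hA0 (Real.rpow_nonneg hmy.le _)
    exact (le_abs_self _).trans (le_of_pow_le_pow_left₀ (by norm_num) h8 h5)
  have hfMx := hfM x hx
  have h1E : 1 ≤ 1 + E := by linarith
  rcases le_or_gt (m x) c2 with hcase | hcase
  · have hg := s_grow n a0 a E A c2 f f1 f2 f3 m P hA0 hm hm0 hslope x hx hcase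
    have hf8 : f x ^ (8 : ℕ) ≤ 32768 * C * (1 + E) * m x := by
      have h1 : (f x ^ 2) ^ 4 ≤ (8 * A * m x ^ ((1 : ℝ) / 4)) ^ 4 :=
        pow_le_pow_left₀ (by positivity) hg 4
      have h2 : (8 * A * m x ^ ((1 : ℝ) / 4)) ^ 4 = 4096 * A ^ 4 * (m x ^ ((1 : ℝ) / 4)) ^ 4 := by
        ring
      have h3 : (m x ^ ((1 : ℝ) / 4)) ^ 4 = m x := by
        rw [← Real.rpow_natCast, ← Real.rpow_mul hmx.le]
        norm_num
      rw [h2, h3, hA4] at h1
      calc f x ^ (8 : ℕ) = (f x ^ 2) ^ 4 := by ring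
        _ ≤ _ := h1
        _ = _ := by ring
    have h4 : f x ^ (n - 1) = f x ^ (n - 9) * f x ^ (8 : ℕ) := by
      rw [← Real.rpow_natCast, ← Real.rpow_add hfx]
      congr 1
      push_cast
      ring
    have h5 : f x ^ (n - 9) ≤ M ^ (n - 9) := Real.rpow_le_rpow hfx.le hfMx (by linarith)
    rw [h4]
    have h6 : 0 ≤ M ^ (n - 1) / c2 * (1 + E) * m x := by positivity
    calc f x ^ (n - 9) * f x ^ (8 : ℕ) ≤ M ^ (n - 9) * (32768 * C * (1 + E) * m x) :=
          mul_le_mul h5 hf8 (by positivity) hMn.le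
      _ ≤ _ := by nlinarith
  · have h5 : f x ^ (n - 1) ≤ M ^ (n - 1) := Real.rpow_le_rpow hfx.le hfMx (by linarith)
    have h6 : 1 ≤ m x / c2 := by
      rw [le_div_iff₀ hc20]
      linarith
    have h7 : M ^ (n - 1) ≤ M ^ (n - 1) / c2 * (1 + E) * m x := by
      have h8 : M ^ (n - 1) / c2 * (1 + E) * m x = M ^ (n - 1) * ((1 + E) * (m x / c2)) := by
        field_simp
      rw [h8]
      have h9 : 1 ≤ (1 + E) * (m x / c2) := by nlinarith
      nlinarith
    have h10 : 0 ≤ M ^ (n - 9) * (32768 * C) * (1 + E) * m x := by positivity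
    nlinarith

end Pool.Agent.Q295.TF
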